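import Mathlib

/-!
# Strengthened parity for directly acceptable formulae

The formula `¬ X` with
`X = (((¬(p → q)) ∧ (¬(r → s))) ∧ (p → (q ∨ (¬q → t)))) ∧ (r → (s ∨ (¬s → ¬t)))`
has a truth-tree with parity, but no truth-tree with strengthened parity. In every truth-tree one can
follow a branch as follows: at a fork of `q ∨ (¬q → t)` go to `q` if the branch already contains
critical nodes from `¬(r → s)`, otherwise go to `¬q → t`; at a fork of `s ∨ (¬s → ¬t)` go to `s` if the
branch already contains critical nodes from `¬(p → q)`, otherwise go to `¬s → ¬t`. On the resulting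
branch the trace of every crash-pair misses some critical node.
-/

set_option autoImplicit false

namespace Pool.Agent.Results.MP_b8bcd1_lc.DirectlyAcceptable

/-- Formulae built from sentence letters with `¬`, `∧`, `∨`, `→`. -/
inductive Fml where
  | var : ℕ → Fml
  | neg : Fml → Fml
  | and : Fml → Fml → Fml
  | or : Fml → Fml → Fml
  | imp : Fml → Fml → Fml
  deriving DecidableEq

/-- A node of a branch: its formula, the positions (on the branch) of the nodes it was obtained from,
and for a critical node the position of its partner. -/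
structure Node where
  formula : Fml
  source : List ℕ
  partner : Option ℕ

/-- A branch is the list of its nodes, starting with the root; the node at position `i` is `b[i]?`. -/
abbrev Branch : Type := List Node

/-- The formula `α` stands at position `i` of the branch. -/
def At (b : Branch) (i : ℕ) (α : Fml) : Prop := ∃ n, b[i]? = some n ∧ n.formula = α

/-- Finite trees growing from the end of a given branch by the rules. -/
inductive Tree : Branch → Type
  | leaf (b : Branch) : Tree b
  /-- from `α ∧ β` add `α` and `β` -/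
  | conj (b : Branch) (i : ℕ) (α β : Fml) (h : At b i (.and α β))
      (t : Tree (b ++ [⟨α, [i], none⟩, ⟨β, [i], none⟩])) : Tree b
  /-- from `¬(α ∨ β)` add `¬α` and `¬β` -/
  | nor (b : Branch) (i : ℕ) (α β : Fml) (h : At b i (.neg (.or α β)))
      (t : Tree (b ++ [⟨.neg α, [i], none⟩, ⟨.neg β, [i], none⟩])) : Tree b
  /-- from `¬¬α` add `α` -/
  | dneg (b : Branch) (i : ℕ) (α : Fml) (h : At b i (.neg (.neg α)))
      (t : Tree (b ++ [⟨α, [i], none⟩])) : Tree b
  /-- from `¬(α ∧ β)` fork into `¬α` and `¬β` -/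
  | nand (b : Branch) (i : ℕ) (α β : Fml) (h : At b i (.neg (.and α β)))
      (t₁ : Tree (b ++ [⟨.neg α, [i], none⟩])) (t₂ : Tree (b ++ [⟨.neg β, [i], none⟩])) : Tree b
  /-- from `α ∨ β` fork into `α` and `β` -/
  | disj (b : Branch) (i : ℕ) (α β : Fml) (h : At b i (.or α β))
      (t₁ : Tree (b ++ [⟨α, [i], none⟩])) (t₂ : Tree (b ++ [⟨β, [i], none⟩])) : Tree b
  /-- modus ponens: from `α` and `α → β` add `β` -/
  | mp (b : Branch) (i j : ℕ) (α β : Fml) (h₁ : At b i α) (h₂ : At b j (.imp α β))
      (t : Tree (b ++ [⟨β, [i, j], none⟩])) : Tree b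
  /-- counter-case: from `¬(α → β)` add the critical nodes `α` and `¬β`, partners of each other -/
  | cc (b : Branch) (i : ℕ) (α β : Fml) (h : At b i (.neg (.imp α β)))
      (t : Tree (b ++ [⟨α, [i], some (b.length + 1)⟩, ⟨.neg β, [i], some b.length⟩])) : Tree b

/-- All complete branches of the tree satisfy `C`. -/
def Tree.AllBranches (C : Branch → Prop) : {b : Branch} → Tree b → Prop
  | _, .leaf b => C b
  | _, .conj _ _ _ _ _ t => t.AllBranches C
  | _, .nor _ _ _ _ _ t => t.AllBranches C
  | _, .dneg _ _ _ _ t => t.AllBranches C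
  | _, .nand _ _ _ _ _ t₁ t₂ => t₁.AllBranches C ∧ t₂.AllBranches C
  | _, .disj _ _ _ _ _ t₁ t₂ => t₁.AllBranches C ∧ t₂.AllBranches C
  | _, .mp _ _ _ _ _ _ _ t => t.AllBranches C
  | _, .cc _ _ _ _ _ t => t.AllBranches C

/-- The truth-trees for `φ`: the root is labelled `¬φ`. -/
abbrev TruthTree (φ : Fml) : Type := Tree [⟨.neg φ, [], none⟩]

/-- The trace of the pair of the nodes at positions `i` and `j`: the least set of positions that
contains `i` and `j` and, for each of its members, the positions it was obtained from. -/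
inductive InTrace (b : Branch) (i j : ℕ) : ℕ → Prop
  | left : InTrace b i j i
  | right : InTrace b i j j
  | step (m k : ℕ) (n : Node) : InTrace b i j m → b[m]? = some n → k ∈ n.source → InTrace b i j k

/-- The nodes at positions `i` and `j` form a crash-pair. -/
def IsCrash (b : Branch) (i j : ℕ) : Prop := ∃ ζ, At b i ζ ∧ At b j (.neg ζ)

/-- The branch carries a crash-pair whose trace contains a critical node exactly when it contains the
partner of that node. -/
def Parity (b : Branch) : Prop :=
  ∃ i j, IsCrash b i j ∧ ∀ c c' n, b[c]? = some n → n.partner = some c' →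
    (InTrace b i j c ↔ InTrace b i j c')

/-- The branch carries a crash-pair whose trace contains every critical node on the branch, together
with its partner. -/
def StrongParity (b : Branch) : Prop :=
  ∃ i j, IsCrash b i j ∧ ∀ c c' n, b[c]? = some n → n.partner = some c' →
    (InTrace b i j c ∧ InTrace b i j c')

/-- The set `DA` of the formulae having a truth-tree with parity. -/
def DA : Set Fml := {φ | ∃ t : TruthTree φ, t.AllBranches Parity}

/-- The set `DA^s` of the formulae having a truth-tree with strengthened parity. -/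
def DAs : Set Fml := {φ | ∃ t : TruthTree φ, t.AllBranches StrongParity}

/-! ### The formula -/

abbrev p : Fml := .var 0
abbrev q : Fml := .var 1
abbrev r : Fml := .var 2
abbrev s : Fml := .var 3
abbrev t : Fml := .var 4
/-- `¬(p → q)` -/
abbrev FA : Fml := .neg (.imp p q)
/-- `¬(r → s)` -/
abbrev FB : Fml := .neg (.imp r s)
/-- `¬q → t` -/
abbrev qt : Fml := .imp (.neg q) t
/-- `¬s → ¬t` -/
abbrev st : Fml := .imp (.neg s) (.neg t)
/-- `q ∨ (¬q → t)` -/
abbrev Oq : Fml := .or q qt
/-- `s ∨ (¬s → ¬t)` -/
abbrev Os : Fml := .or s st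
/-- `p → (q ∨ (¬q → t))` -/
abbrev FC : Fml := .imp p Oq
/-- `r → (s ∨ (¬s → ¬t))` -/
abbrev FD : Fml := .imp r Os
/-- the conjunction -/
abbrev FX : Fml := .and (.and (.and FA FB) FC) FD
/-- the formula `¬X` -/
abbrev phi : Fml := .neg FX

/-- the labels without dependence on critical nodes -/
def L0 : List Fml := [.neg phi, FX, .and (.and FA FB) FC, FD, .and FA FB, FC, FA, FB]
/-- the labels depending on the critical nodes for `¬(p → q)` -/
def Lc : List Fml := [p, .neg q, Oq, q, qt, t]
/-- the labels depending on the critical nodes for `¬(r → s)` -/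
def Ld : List Fml := [r, .neg s, Os, s, st, .neg t]

/-- the label at position `i` is in the list -/
def In (b : Branch) (i : ℕ) (l : List Fml) : Prop := ∃ n : Node, b[i]? = some n ∧ n.formula ∈ l

/-- a label occurs on the branch -/
def Occ (b : Branch) (α : Fml) : Prop := ∃ i, At b i α

/-- a critical node with the given label occurs on the branch -/
def Crit (b : Branch) (α : Fml) : Prop := ∃ (i c : ℕ) (n : Node), b[i]? = some n ∧
  n.formula = α ∧ n.partner = some c

/-- the invariant of the chosen branch -/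
structure Inv (b : Branch) : Prop where
  labels : ∀ (i : ℕ) (n : Node), b[i]? = some n → n.formula ∈ L0 ∨ n.formula ∈ Lc ∨ n.formula ∈ Ld
  src0 : ∀ (i : ℕ) (n : Node), b[i]? = some n → n.formula ∈ L0 → ∀ k ∈ n.source, In b k L0
  srcc : ∀ (i : ℕ) (n : Node), b[i]? = some n → n.formula ∈ Lc →
    ∀ k ∈ n.source, In b k L0 ∨ In b k Lc
  srcd : ∀ (i : ℕ) (n : Node), b[i]? = some n → n.formula ∈ Ld →
    ∀ k ∈ n.source, In b k L0 ∨ In b k Ld
  critc : ∀ i, In b i Lc → Crit b p
  critd : ∀ i, In b i Ld → Crit b r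
  qocc : Occ b q → Crit b r
  socc : Occ b s → Crit b p
  tocc : Occ b t → Occ b qt
  ntocc : Occ b (.neg t) → Occ b st
  excl : Occ b qt → ¬ Occ b st

theorem get_append {b l : Branch} {i : ℕ} {n : Node} (h : (b ++ l)[i]? = some n) :
    b[i]? = some n ∨ n ∈ l := by
  rcases Nat.lt_or_ge i b.length with h1 | h1
  · rw [List.getElem?_append_left h1] at h
    exact Or.inl h
  · rw [List.getElem?_append_right h1] at h
    exact Or.inr (List.mem_of_getElem? h)

theorem get_mono {b : Branch} (l : Branch) {i : ℕ} {n : Node} (h : b[i]? = some n) :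
    (b ++ l)[i]? = some n := by
  rw [List.getElem?_append_left (List.getElem?_eq_some_iff.mp h).1]
  exact h

theorem In.mono {b : Branch} (l : Branch) {i : ℕ} {L : List Fml} (h : In b i L) :
    In (b ++ l) i L := by
  obtain ⟨n, h1, h2⟩ := h
  exact ⟨n, get_mono l h1, h2⟩

theorem Occ.mono {b : Branch} (l : Branch) {α : Fml} (h : Occ b α) : Occ (b ++ l) α := by
  obtain ⟨i, n, h1, h2⟩ := h
  exact ⟨i, n, get_mono l h1, h2⟩

theorem Crit.mono {b : Branch} (l : Branch) {α : Fml} (h : Crit b α) : Crit (b ++ l) α := by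
  obtain ⟨i, c, n, h1, h2⟩ := h
  exact ⟨i, c, n, get_mono l h1, h2⟩

theorem Occ.append {b l : Branch} {α : Fml} (h : Occ (b ++ l) α) :
    Occ b α ∨ ∃ n ∈ l, n.formula = α := by
  obtain ⟨i, n, h1, h2⟩ := h
  rcases get_append h1 with h3 | h3
  · exact Or.inl ⟨i, n, h3, h2⟩
  · exact Or.inr ⟨n, h3, h2⟩

theorem Inv.append {b : Branch} (h : Inv b) (l : Branch)
    (hl : ∀ n ∈ l, (n.formula ∈ L0 ∧ ∀ k ∈ n.source, In b k L0) ∨
      (n.formula ∈ Lc ∧ ∀ k ∈ n.source, In b k L0 ∨ In b k Lc) ∨
      (n.formula ∈ Ld ∧ ∀ k ∈ n.source, In b k L0 ∨ In b k Ld))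
    (hc : (∃ n ∈ l, n.formula ∈ Lc) → Crit (b ++ l) p)
    (hd : (∃ n ∈ l, n.formula ∈ Ld) → Crit (b ++ l) r)
    (hq : (∃ n ∈ l, n.formula = q) → Crit b r)
    (hs : (∃ n ∈ l, n.formula = s) → Crit b p)
    (ht : (∃ n ∈ l, n.formula = t) → Occ b qt)
    (hnt : (∃ n ∈ l, n.formula = .neg t) → Occ b st)
    (hqt : (∃ n ∈ l, n.formula = qt) → ¬ Occ (b ++ l) st)
    (hst : (∃ n ∈ l, n.formula = st) → ¬ Occ (b ++ l) qt) : Inv (b ++ l) := by
  have d1 : ∀ α ∈ L0, α ∉ Lc ∧ α ∉ Ld := by decide
  have d2 : ∀ α ∈ Lc, α ∉ L0 ∧ α ∉ Ld := by decide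
  have d3 : ∀ α ∈ Ld, α ∉ L0 ∧ α ∉ Lc := by decide
  constructor
  · intro i n hn
    rcases get_append hn with h1 | h1
    · exact h.labels i n h1
    · rcases hl n h1 with h2 | h2 | h2
      · exact Or.inl h2.1
      · exact Or.inr (Or.inl h2.1)
      · exact Or.inr (Or.inr h2.1)
  · intro i n hn hf k hk
    rcases get_append hn with h1 | h1
    · exact (h.src0 i n h1 hf k hk).mono l
    · rcases hl n h1 with h2 | h2 | h2
      · exact (h2.2 k hk).mono l
      · exact absurd h2.1 (d1 _ hf).1
      · exact absurd h2.1 (d1 _ hf).2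
  · intro i n hn hf k hk
    rcases get_append hn with h1 | h1
    · exact (h.srcc i n h1 hf k hk).imp (fun h => h.mono l) (fun h => h.mono l)
    · rcases hl n h1 with h2 | h2 | h2
      · exact absurd h2.1 (d2 _ hf).1
      · exact (h2.2 k hk).imp (fun h => h.mono l) (fun h => h.mono l)
      · exact absurd h2.1 (d2 _ hf).2
  · intro i n hn hf k hk
    rcases get_append hn with h1 | h1
    · exact (h.srcd i n h1 hf k hk).imp (fun h => h.mono l) (fun h => h.mono l)
    · rcases hl n h1 with h2 | h2 | h2
      · exact absurd h2.1 (d3 _ hf).1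
      · exact absurd h2.1 (d3 _ hf).2
      · exact (h2.2 k hk).imp (fun h => h.mono l) (fun h => h.mono l)
  · rintro i ⟨n, h1, h2⟩
    rcases get_append h1 with h3 | h3
    · exact (h.critc i ⟨n, h3, h2⟩).mono l
    · exact hc ⟨n, h3, h2⟩
  · rintro i ⟨n, h1, h2⟩
    rcases get_append h1 with h3 | h3
    · exact (h.critd i ⟨n, h3, h2⟩).mono l
    · exact hd ⟨n, h3, h2⟩
  · intro ho
    rcases ho.append with h3 | h3
    · exact (h.qocc h3).mono l
    · exact (hq h3).mono l
  · intro ho
    rcases ho.append with h3 | h3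
    · exact (h.socc h3).mono l
    · exact (hs h3).mono l
  · intro ho
    rcases ho.append with h3 | h3
    · exact (h.tocc h3).mono l
    · exact (ht h3).mono l
  · intro ho
    rcases ho.append with h3 | h3
    · exact (h.ntocc h3).mono l
    · exact (hnt h3).mono l
  · intro ho ho'
    rcases ho.append with h3 | h3
    · rcases ho'.append with h4 | h4
      · exact h.excl h3 h4
      · exact hst h4 ho
    · exact hqt h3 ho'

theorem Inv.at {b : Branch} (h : Inv b) {i : ℕ} {α : Fml} (hα : At b i α) :
    (α ∈ L0 ∧ In b i L0) ∨ (α ∈ Lc ∧ In b i Lc) ∨ (α ∈ Ld ∧ In b i Ld) := by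
  obtain ⟨n, h1, rfl⟩ := hα
  rcases h.labels i n h1 with h2 | h2 | h2
  · exact Or.inl ⟨h2, n, h1, h2⟩
  · exact Or.inr (Or.inl ⟨h2, n, h1, h2⟩)
  · exact Or.inr (Or.inr ⟨h2, n, h1, h2⟩)

theorem Inv.append0 {b : Branch} (h : Inv b) (l : Branch)
    (hl : ∀ n ∈ l, n.formula ∈ L0 ∧ ∀ k ∈ n.source, In b k L0) : Inv (b ++ l) := by
  have d : ∀ α ∈ L0, α ∉ Lc ∧ α ∉ Ld ∧ α ≠ q ∧ α ≠ s ∧ α ≠ t ∧ α ≠ .neg t ∧ α ≠ qt ∧ α ≠ st := by
    decide
  refine h.append l (fun n hn => Or.inl (hl n hn)) ?_ ?_ ?_ ?_ ?_ ?_ ?_ ?_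
  all_goals
    rintro ⟨n, hn, hf⟩
    have := d _ (hl n hn).1
    tauto

theorem noStrong {b : Branch} (h : Inv b) : ¬ StrongParity b := by
  rintro ⟨i, j, ⟨ζ, hi, hj⟩, hcrit⟩
  have hcases : ∀ α ∈ L0 ++ Lc ++ Ld, ∀ β ∈ L0 ++ Lc ++ Ld, β = .neg α →
      α = q ∨ α = s ∨ α = t := by decide
  have memb : ∀ {k : ℕ} {α : Fml}, At b k α → α ∈ L0 ++ Lc ++ Ld := by
    intro k α hk
    rw [List.mem_append, List.mem_append]
    rcases h.at hk with h1 | h1 | h1
    · exact Or.inl (Or.inl h1.1)
    · exact Or.inl (Or.inr h1.1)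
    · exact Or.inr h1.1
  rcases hcases ζ (memb hi) (.neg ζ) (memb hj) rfl with rfl | rfl | rfl
  · -- the pair `q`, `¬q`
    obtain ⟨m, c, n, h1, h2, h3⟩ := h.qocc ⟨i, hi⟩
    have htr : ∀ k, InTrace b i j k → In b k L0 ∨ In b k Lc := by
      intro k hk
      induction hk with
      | left => exact Or.inr (by obtain ⟨n, h4, h5⟩ := hi; exact ⟨n, h4, by rw [h5]; decide⟩)
      | right => exact Or.inr (by obtain ⟨n, h4, h5⟩ := hj; exact ⟨n, h4, by rw [h5]; decide⟩)
      | step m k n _ h5 h6 ih =>
        rcases ih with ⟨n', h7, h8⟩ | ⟨n', h7, h8⟩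
        · rw [h5, Option.some.injEq] at h7
          subst h7
          exact Or.inl (h.src0 m n h5 h8 k h6)
        · rw [h5, Option.some.injEq] at h7
          subst h7
          exact h.srcc m n h5 h8 k h6
    have h4 := htr m (hcrit m c n h1 h3).1
    have hr : r ∉ L0 ∧ r ∉ Lc := by decide
    rcases h4 with ⟨n', h7, h8⟩ | ⟨n', h7, h8⟩
    · rw [h1, Option.some.injEq] at h7
      subst h7
      rw [h2] at h8
      exact hr.1 h8
    · rw [h1, Option.some.injEq] at h7
      subst h7
      rw [h2] at h8
      exact hr.2 h8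
  · -- the pair `s`, `¬s`
    obtain ⟨m, c, n, h1, h2, h3⟩ := h.socc ⟨i, hi⟩
    have htr : ∀ k, InTrace b i j k → In b k L0 ∨ In b k Ld := by
      intro k hk
      induction hk with
      | left => exact Or.inr (by obtain ⟨n, h4, h5⟩ := hi; exact ⟨n, h4, by rw [h5]; decide⟩)
      | right => exact Or.inr (by obtain ⟨n, h4, h5⟩ := hj; exact ⟨n, h4, by rw [h5]; decide⟩)
      | step m k n _ h5 h6 ih =>
        rcases ih with ⟨n', h7, h8⟩ | ⟨n', h7, h8⟩
        · rw [h5, Option.some.injEq] at h7
          subst h7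
          exact Or.inl (h.src0 m n h5 h8 k h6)
        · rw [h5, Option.some.injEq] at h7
          subst h7
          exact h.srcd m n h5 h8 k h6
    have h4 := htr m (hcrit m c n h1 h3).1
    have hr : p ∉ L0 ∧ p ∉ Ld := by decide
    rcases h4 with ⟨n', h7, h8⟩ | ⟨n', h7, h8⟩
    · rw [h1, Option.some.injEq] at h7
      subst h7
      rw [h2] at h8
      exact hr.1 h8
    · rw [h1, Option.some.injEq] at h7
      subst h7
      rw [h2] at h8
      exact hr.2 h8
  · -- the pair `t`, `¬t`
    exact h.excl (h.tocc ⟨i, hi⟩) (h.ntocc ⟨j, hj⟩)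

theorem mX : FX ∈ L0 := by decide
theorem mq : q ∈ Lc := by decide
theorem mqt : qt ∈ Lc := by decide
theorem mOq : Oq ∈ Lc := by decide
theorem mp' : p ∈ Lc := by decide
theorem mnq : Fml.neg q ∈ Lc := by decide
theorem mt : t ∈ Lc := by decide
theorem ms : s ∈ Ld := by decide
theorem mst : st ∈ Ld := by decide
theorem mOs : Os ∈ Ld := by decide
theorem mr : r ∈ Ld := by decide
theorem mns : Fml.neg s ∈ Ld := by decide
theorem mnt : Fml.neg t ∈ Ld := by decide
theorem nqt : qt ∉ Ld := by decide
theorem nOq : Oq ∉ Ld := by decide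
theorem nt : t ∉ Ld := by decide
theorem nst : st ∉ Lc := by decide
theorem nOs : Os ∉ Lc := by decide
theorem nnt : Fml.neg t ∉ Lc := by decide

theorem main {b : Branch} (T : Tree b) (h : Inv b) : ¬ T.AllBranches StrongParity := by
  induction T with
  | leaf b => exact noStrong h
  | conj b i α β hα T ih =>
    refine ih (h.append0 _ ?_)
    have key : ∀ γ ∈ L0 ++ Lc ++ Ld, ∀ α' ∈ L0 ++ Lc ++ Ld, True := fun _ _ _ _ => trivial
    have hcase : (Fml.and α β ∈ L0 ∧ In b i L0) ∧ α ∈ L0 ∧ β ∈ L0 := by
      rcases h.at hα with h1 | h1 | h1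
      · refine ⟨h1, ?_⟩
        have h2 := h1.1
        simp only [L0, List.mem_cons, Fml.and.injEq, List.not_mem_nil, or_false, reduceCtorEq,
          false_or] at h2
        rcases h2 with ⟨rfl, rfl⟩ | ⟨rfl, rfl⟩ | ⟨rfl, rfl⟩ <;> decide
      · have h2 := h1.1
        simp [Lc] at h2
      · have h2 := h1.1
        simp [Ld] at h2
    intro n hn
    simp only [List.mem_cons, List.not_mem_nil, or_false] at hn
    rcases hn with rfl | rfl
    · exact ⟨hcase.2.1, fun k hk => by
        simp only [List.mem_cons, List.not_mem_nil, or_false] at hk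
        rw [hk]; exact hcase.1.2⟩
    · exact ⟨hcase.2.2, fun k hk => by
        simp only [List.mem_cons, List.not_mem_nil, or_false] at hk
        rw [hk]; exact hcase.1.2⟩
  | nor b i α β hα T ih =>
    exfalso
    rcases h.at hα with h1 | h1 | h1 <;> simp [L0, Lc, Ld] at h1
  | dneg b i α hα T ih =>
    have hcase : In b i L0 ∧ α = FX := by
      rcases h.at hα with h1 | h1 | h1
      · have h2 := h1.1
        simp [L0] at h2
        exact ⟨h1.2, h2⟩
      · have h2 := h1.1
        simp [Lc] at h2
      · have h2 := h1.1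
        simp [Ld] at h2
    obtain ⟨h1, rfl⟩ := hcase
    refine ih (h.append0 _ ?_)
    intro n hn
    simp only [List.mem_cons, List.not_mem_nil, or_false] at hn
    subst hn
    exact ⟨mX, fun k hk => by
      simp only [List.mem_cons, List.not_mem_nil, or_false] at hk
      rw [hk]; exact h1⟩
  | nand b i α β hα T₁ T₂ ih₁ ih₂ =>
    exfalso
    rcases h.at hα with h1 | h1 | h1 <;> simp [L0, Lc, Ld] at h1
  | disj b i α β hα T₁ T₂ ih₁ ih₂ =>
    rintro ⟨a1, a2⟩
    have hcase : (In b i Lc ∧ α = q ∧ β = qt) ∨ (In b i Ld ∧ α = s ∧ β = st) := by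
      rcases h.at hα with h1 | h1 | h1
      · have h2 := h1.1
        simp [L0] at h2
      · have h2 := h1.1
        simp [Lc] at h2
        exact Or.inl ⟨h1.2, h2⟩
      · have h2 := h1.1
        simp [Ld] at h2
        exact Or.inr ⟨h1.2, h2⟩
    rcases hcase with ⟨h1, rfl, rfl⟩ | ⟨h1, rfl, rfl⟩
    · by_cases hd : ∃ k, In b k Ld
      · obtain ⟨k, hk⟩ := hd
        refine ih₁ (h.append _ ?_ ?_ ?_ ?_ ?_ ?_ ?_ ?_ ?_) a1
        · intro n hn
          simp only [List.mem_cons, List.not_mem_nil, or_false] at hn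
          subst hn
          exact Or.inr (Or.inl ⟨mq, fun k hk => by
            simp only [List.mem_cons, List.not_mem_nil, or_false] at hk
            rw [hk]; exact Or.inr h1⟩)
        · exact fun _ => (h.critc i h1).mono _
        · exact fun _ => (h.critd k hk).mono _
        · exact fun _ => h.critd k hk
        · exact fun _ => h.critc i h1
        · simp
        · simp
        · simp
        · simp
      · refine ih₂ (h.append _ ?_ ?_ ?_ ?_ ?_ ?_ ?_ ?_ ?_) a2
        · intro n hn
          simp only [List.mem_cons, List.not_mem_nil, or_false] at hn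
          subst hn
          exact Or.inr (Or.inl ⟨mqt, fun k hk => by
            simp only [List.mem_cons, List.not_mem_nil, or_false] at hk
            rw [hk]; exact Or.inr h1⟩)
        · exact fun _ => (h.critc i h1).mono _
        · rintro ⟨n, hn, hf⟩
          simp only [List.mem_cons, List.not_mem_nil, or_false] at hn
          subst hn
          exact absurd hf nqt
        · simp
        · simp
        · simp
        · simp
        · intro _ ho
          rcases ho.append with ⟨k, n, h3, h4⟩ | ⟨n, h3, h4⟩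
          · exact hd ⟨k, n, h3, by rw [h4]; decide⟩
          · simp only [List.mem_cons, List.not_mem_nil, or_false] at h3
            subst h3
            simp at h4
        · simp
    · by_cases hd : ∃ k, In b k Lc
      · obtain ⟨k, hk⟩ := hd
        refine ih₁ (h.append _ ?_ ?_ ?_ ?_ ?_ ?_ ?_ ?_ ?_) a1
        · intro n hn
          simp only [List.mem_cons, List.not_mem_nil, or_false] at hn
          subst hn
          exact Or.inr (Or.inr ⟨ms, fun k hk => by
            simp only [List.mem_cons, List.not_mem_nil, or_false] at hk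
            rw [hk]; exact Or.inr h1⟩)
        · exact fun _ => (h.critc k hk).mono _
        · exact fun _ => (h.critd i h1).mono _
        · exact fun _ => h.critd i h1
        · exact fun _ => h.critc k hk
        · simp
        · simp
        · simp
        · simp
      · refine ih₂ (h.append _ ?_ ?_ ?_ ?_ ?_ ?_ ?_ ?_ ?_) a2
        · intro n hn
          simp only [List.mem_cons, List.not_mem_nil, or_false] at hn
          subst hn
          exact Or.inr (Or.inr ⟨mst, fun k hk => by
            simp only [List.mem_cons, List.not_mem_nil, or_false] at hk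
            rw [hk]; exact Or.inr h1⟩)
        · rintro ⟨n, hn, hf⟩
          simp only [List.mem_cons, List.not_mem_nil, or_false] at hn
          subst hn
          exact absurd hf nst
        · exact fun _ => (h.critd i h1).mono _
        · simp
        · simp
        · simp
        · simp
        · simp
        · intro _ ho
          rcases ho.append with ⟨k, n, h3, h4⟩ | ⟨n, h3, h4⟩
          · exact hd ⟨k, n, h3, by rw [h4]; decide⟩
          · simp only [List.mem_cons, List.not_mem_nil, or_false] at h3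
            subst h3
            simp at h4
  | mp b i j α β hα hβ T ih =>
    have hcase : (In b j L0 ∧ α = r ∧ β = Os) ∨ (In b j L0 ∧ α = p ∧ β = Oq) ∨
        (In b j Lc ∧ α = .neg q ∧ β = t) ∨ (In b j Ld ∧ α = .neg s ∧ β = .neg t) := by
      rcases h.at hβ with h1 | h1 | h1
      · have h2 := h1.1
        simp [L0] at h2
        rcases h2 with h2 | h2
        · exact Or.inl ⟨h1.2, h2⟩
        · exact Or.inr (Or.inl ⟨h1.2, h2⟩)
      · have h2 := h1.1
        simp [Lc] at h2
        exact Or.inr (Or.inr (Or.inl ⟨h1.2, h2⟩))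
      · have h2 := h1.1
        simp [Ld] at h2
        exact Or.inr (Or.inr (Or.inr ⟨h1.2, h2⟩))
    have inα : ∀ L : List Fml, α ∈ L → In b i L := by
      intro L hL
      obtain ⟨n, h1, h2⟩ := hα
      exact ⟨n, h1, by rw [h2]; exact hL⟩
    rcases hcase with ⟨h1, rfl, rfl⟩ | ⟨h1, rfl, rfl⟩ | ⟨h1, rfl, rfl⟩ | ⟨h1, rfl, rfl⟩
    · have hi := inα Ld mr
      refine ih (h.append _ ?_ ?_ ?_ ?_ ?_ ?_ ?_ ?_ ?_)
      · intro n hn
        simp only [List.mem_cons, List.not_mem_nil, or_false] at hn
        subst hn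
        refine Or.inr (Or.inr ⟨mOs, fun k hk => ?_⟩)
        simp only [List.mem_cons, List.not_mem_nil, or_false] at hk
        rcases hk with rfl | rfl
        · exact Or.inr hi
        · exact Or.inl h1
      · rintro ⟨n, hn, hf⟩
        simp only [List.mem_cons, List.not_mem_nil, or_false] at hn
        subst hn
        exact absurd hf nOs
      · exact fun _ => (h.critd i hi).mono _
      · simp
      · simp
      · simp
      · simp
      · simp
      · simp
    · have hi := inα Lc mp'
      refine ih (h.append _ ?_ ?_ ?_ ?_ ?_ ?_ ?_ ?_ ?_)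
      · intro n hn
        simp only [List.mem_cons, List.not_mem_nil, or_false] at hn
        subst hn
        refine Or.inr (Or.inl ⟨mOq, fun k hk => ?_⟩)
        simp only [List.mem_cons, List.not_mem_nil, or_false] at hk
        rcases hk with rfl | rfl
        · exact Or.inr hi
        · exact Or.inl h1
      · exact fun _ => (h.critc i hi).mono _
      · rintro ⟨n, hn, hf⟩
        simp only [List.mem_cons, List.not_mem_nil, or_false] at hn
        subst hn
        exact absurd hf nOq
      · simp
      · simp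
      · simp
      · simp
      · simp
      · simp
    · have hi := inα Lc mnq
      refine ih (h.append _ ?_ ?_ ?_ ?_ ?_ ?_ ?_ ?_ ?_)
      · intro n hn
        simp only [List.mem_cons, List.not_mem_nil, or_false] at hn
        subst hn
        refine Or.inr (Or.inl ⟨mt, fun k hk => ?_⟩)
        simp only [List.mem_cons, List.not_mem_nil, or_false] at hk
        rcases hk with rfl | rfl
        · exact Or.inr hi
        · exact Or.inr h1
      · exact fun _ => (h.critc i hi).mono _
      · rintro ⟨n, hn, hf⟩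
        simp only [List.mem_cons, List.not_mem_nil, or_false] at hn
        subst hn
        exact absurd hf nt
      · simp
      · simp
      · exact fun _ => ⟨j, hβ⟩
      · simp
      · simp
      · simp
    · have hi := inα Ld mns
      refine ih (h.append _ ?_ ?_ ?_ ?_ ?_ ?_ ?_ ?_ ?_)
      · intro n hn
        simp only [List.mem_cons, List.not_mem_nil, or_false] at hn
        subst hn
        refine Or.inr (Or.inr ⟨mnt, fun k hk => ?_⟩)
        simp only [List.mem_cons, List.not_mem_nil, or_false] at hk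
        rcases hk with rfl | rfl
        · exact Or.inr hi
        · exact Or.inr h1
      · rintro ⟨n, hn, hf⟩
        simp only [List.mem_cons, List.not_mem_nil, or_false] at hn
        subst hn
        exact absurd hf nnt
      · exact fun _ => (h.critd i hi).mono _
      · simp
      · simp
      · simp
      · exact fun _ => ⟨j, hβ⟩
      · simp
      · simp
  | cc b i α β hα T ih =>
    have hcase : In b i L0 ∧ ((α = p ∧ β = q) ∨ (α = r ∧ β = s)) := by
      rcases h.at hα with h1 | h1 | h1
      · have h2 := h1.1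
        simp [L0] at h2
        exact ⟨h1.2, h2⟩
      · have h2 := h1.1
        simp [Lc] at h2
      · have h2 := h1.1
        simp [Ld] at h2
    obtain ⟨h1, ⟨rfl, rfl⟩ | ⟨rfl, rfl⟩⟩ := hcase
    · refine ih (h.append _ ?_ ?_ ?_ ?_ ?_ ?_ ?_ ?_ ?_)
      · intro n hn
        simp only [List.mem_cons, List.not_mem_nil, or_false] at hn
        rcases hn with rfl | rfl
        · exact Or.inr (Or.inl ⟨mp', fun k hk => by
            simp only [List.mem_cons, List.not_mem_nil, or_false] at hk
            rw [hk]; exact Or.inl h1⟩)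
        · exact Or.inr (Or.inl ⟨mnq, fun k hk => by
            simp only [List.mem_cons, List.not_mem_nil, or_false] at hk
            rw [hk]; exact Or.inl h1⟩)
      · intro _
        refine ⟨b.length, b.length + 1, ⟨p, [i], some (b.length + 1)⟩, ?_, rfl, rfl⟩
        rw [List.getElem?_append_right le_rfl, Nat.sub_self]
        rfl
      · rintro ⟨n, hn, hf⟩
        simp only [List.mem_cons, List.not_mem_nil, or_false] at hn
        have e1 : p ∉ Ld := by decide
        have e2 : Fml.neg q ∉ Ld := by decide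
        rcases hn with rfl | rfl
        · exact absurd hf e1
        · exact absurd hf e2
      · simp
      · simp
      · simp
      · simp
      · simp
      · simp
    · refine ih (h.append _ ?_ ?_ ?_ ?_ ?_ ?_ ?_ ?_ ?_)
      · intro n hn
        simp only [List.mem_cons, List.not_mem_nil, or_false] at hn
        rcases hn with rfl | rfl
        · exact Or.inr (Or.inr ⟨mr, fun k hk => by
            simp only [List.mem_cons, List.not_mem_nil, or_false] at hk
            rw [hk]; exact Or.inl h1⟩)
        · exact Or.inr (Or.inr ⟨mns, fun k hk => by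
            simp only [List.mem_cons, List.not_mem_nil, or_false] at hk
            rw [hk]; exact Or.inl h1⟩)
      · rintro ⟨n, hn, hf⟩
        simp only [List.mem_cons, List.not_mem_nil, or_false] at hn
        have e1 : r ∉ Lc := by decide
        have e2 : Fml.neg s ∉ Lc := by decide
        rcases hn with rfl | rfl
        · exact absurd hf e1
        · exact absurd hf e2
      · intro _
        refine ⟨b.length, b.length + 1, ⟨r, [i], some (b.length + 1)⟩, ?_, rfl, rfl⟩
        rw [List.getElem?_append_right le_rfl, Nat.sub_self]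
        rfl
      · simp
      · simp
      · simp
      · simp
      · simp
      · simp

theorem inv_root : Inv [⟨.neg phi, [], none⟩] := by
  have key : ∀ (i : ℕ) (n : Node), ([⟨.neg phi, [], none⟩] : Branch)[i]? = some n →
      n = ⟨.neg phi, [], none⟩ := by
    intro i n h
    have := List.mem_of_getElem? h
    simpa using this
  have nocc : ∀ α : Fml, α ≠ .neg phi → ¬ Occ [⟨.neg phi, [], none⟩] α := by
    rintro α hα ⟨i, n, h1, h2⟩
    rw [key i n h1] at h2
    exact hα h2.symm
  constructor
  · intro i n h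
    rw [key i n h]
    left
    have : Fml.neg phi ∈ L0 := by decide
    exact this
  · intro i n h _ k hk
    rw [key i n h] at hk
    simp at hk
  · intro i n h _ k hk
    rw [key i n h] at hk
    simp at hk
  · intro i n h _ k hk
    rw [key i n h] at hk
    simp at hk
  · rintro i ⟨n, h1, h2⟩
    rw [key i n h1] at h2
    have : Fml.neg phi ∉ Lc := by decide
    exact absurd h2 this
  · rintro i ⟨n, h1, h2⟩
    rw [key i n h1] at h2
    have : Fml.neg phi ∉ Ld := by decide
    exact absurd h2 this
  · exact fun h => absurd h (nocc _ (by decide))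
  · exact fun h => absurd h (nocc _ (by decide))
  · exact fun h => absurd h (nocc _ (by decide))
  · exact fun h => absurd h (nocc _ (by decide))
  · exact fun h => absurd h (nocc _ (by decide))

theorem phi_not_mem : phi ∉ DAs := fun ⟨T, hT⟩ => main T inv_root hT

/-! ### The truth-tree with parity -/

/-- the positions from which the node at position `m` was obtained -/
def src (b : Branch) (m : ℕ) : List ℕ := (b[m]?.map Node.source).getD []

theorem InTrace.step' {b : Branch} {i j : ℕ} (m k : ℕ) (h : InTrace b i j m)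
    (hk : k ∈ src b m) : InTrace b i j k := by
  unfold src at hk
  rcases hb : b[m]? with _ | n
  · rw [hb] at hk
    simp at hk
  · rw [hb] at hk
    exact h.step m k n hb (by simpa using hk)

theorem parity_of (b : Branch) (i j : ℕ) (hcr : IsCrash b i j) (P S : List ℕ)
    (hP : ∀ k ∈ P, InTrace b i j k) (hi : i ∈ S) (hj : j ∈ S)
    (hS : ∀ m ∈ S, ∀ k ∈ src b m, k ∈ S)
    (hc : ∀ c < b.length, ∀ c' ∈ (b[c]?.bind Node.partner).toList,
      (c ∈ P ∧ c' ∈ P) ∨ (c ∉ S ∧ c' ∉ S)) : Parity b := by
  refine ⟨i, j, hcr, fun c c' n h1 h2 => ?_⟩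
  have hlt : c < b.length := (List.getElem?_eq_some_iff.mp h1).1
  have htr : ∀ k, InTrace b i j k → k ∈ S := by
    intro k hk
    induction hk with
    | left => exact hi
    | right => exact hj
    | step m k n _ h5 h6 ih =>
      refine hS m ih k ?_
      unfold src
      rw [h5]
      exact h6
  have h3 := hc c hlt c' (by rw [h1]; simp [h2])
  rcases h3 with h3 | h3
  · exact ⟨fun _ => hP _ h3.2, fun _ => hP _ h3.1⟩
  · exact ⟨fun h => absurd (htr _ h) h3.1, fun h => absurd (htr _ h) h3.2⟩

/-- the common part of all branches -/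
def B0 : Branch := [⟨.neg phi, [], none⟩] ++ [⟨FX, [0], none⟩] ++
  [⟨.and (.and FA FB) FC, [1], none⟩, ⟨FD, [1], none⟩] ++
  [⟨.and FA FB, [2], none⟩, ⟨FC, [2], none⟩] ++ [⟨FA, [4], none⟩, ⟨FB, [4], none⟩] ++
  [⟨p, [6], some 9⟩, ⟨.neg q, [6], some 8⟩] ++ [⟨r, [7], some 11⟩, ⟨.neg s, [7], some 10⟩] ++
  [⟨Oq, [8, 5], none⟩] ++ [⟨Os, [10, 3], none⟩]

/-- the branch through `q` -/
def B1 : Branch := B0 ++ [⟨q, [12], none⟩]
/-- the branch through `¬q → t` and `s` -/
def B2 : Branch := B0 ++ [⟨qt, [12], none⟩] ++ [⟨t, [9, 14], none⟩] ++ [⟨s, [13], none⟩]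
/-- the branch through `¬q → t` and `¬s → ¬t` -/
def B3 : Branch := B0 ++ [⟨qt, [12], none⟩] ++ [⟨t, [9, 14], none⟩] ++ [⟨st, [13], none⟩] ++
  [⟨.neg t, [11, 16], none⟩]

theorem parity1 : Parity B1 := by
  have h14 : InTrace B1 14 9 14 := .left
  have h9 : InTrace B1 14 9 9 := .right
  have h12 := h14.step' 14 12 (by decide)
  have h8 := h12.step' 12 8 (by decide)
  refine parity_of B1 14 9 ⟨q, ⟨_, rfl, rfl⟩, ⟨_, rfl, rfl⟩⟩ [8, 9]
    [14, 12, 9, 8, 6, 5, 4, 2, 1, 0] ?_ (by decide) (by decide) (by decide) (by decide)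
  intro k hk
  simp only [List.mem_cons, List.not_mem_nil, or_false] at hk
  rcases hk with rfl | rfl
  · exact h8
  · exact h9

theorem parity2 : Parity B2 := by
  have h16 : InTrace B2 16 11 16 := .left
  have h11 : InTrace B2 16 11 11 := .right
  have h13 := h16.step' 16 13 (by decide)
  have h10 := h13.step' 13 10 (by decide)
  refine parity_of B2 16 11 ⟨s, ⟨_, rfl, rfl⟩, ⟨_, rfl, rfl⟩⟩ [10, 11]
    [16, 13, 11, 10, 7, 4, 3, 2, 1, 0] ?_ (by decide) (by decide) (by decide) (by decide)
  intro k hk
  simp only [List.mem_cons, List.not_mem_nil, or_false] at hk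
  rcases hk with rfl | rfl
  · exact h10
  · exact h11

theorem parity3 : Parity B3 := by
  have h15 : InTrace B3 15 17 15 := .left
  have h17 : InTrace B3 15 17 17 := .right
  have h9 := h15.step' 15 9 (by decide)
  have h14 := h15.step' 15 14 (by decide)
  have h12 := h14.step' 14 12 (by decide)
  have h8 := h12.step' 12 8 (by decide)
  have h11 := h17.step' 17 11 (by decide)
  have h16 := h17.step' 17 16 (by decide)
  have h13 := h16.step' 16 13 (by decide)
  have h10 := h13.step' 13 10 (by decide)
  refine parity_of B3 15 17 ⟨t, ⟨_, rfl, rfl⟩, ⟨_, rfl, rfl⟩⟩ [8, 9, 10, 11]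
    [17, 16, 15, 14, 13, 12, 11, 10, 9, 8, 7, 6, 5, 4, 3, 2, 1, 0] ?_ (by decide) (by decide)
    (by decide) (by decide)
  intro k hk
  simp only [List.mem_cons, List.not_mem_nil, or_false] at hk
  rcases hk with rfl | rfl | rfl | rfl
  · exact h8
  · exact h9
  · exact h10
  · exact h11

theorem phi_mem : phi ∈ DA := by
  refine ⟨.dneg _ 0 FX ⟨_, rfl, rfl⟩ (.conj _ 1 (.and (.and FA FB) FC) FD ⟨_, rfl, rfl⟩
    (.conj _ 2 (.and FA FB) FC ⟨_, rfl, rfl⟩ (.conj _ 4 FA FB ⟨_, rfl, rfl⟩
    (.cc _ 6 p q ⟨_, rfl, rfl⟩ (.cc _ 7 r s ⟨_, rfl, rfl⟩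
    (.mp _ 8 5 p Oq ⟨_, rfl, rfl⟩ ⟨_, rfl, rfl⟩
    (.mp _ 10 3 r Os ⟨_, rfl, rfl⟩ ⟨_, rfl, rfl⟩
    (.disj _ 12 q qt ⟨_, rfl, rfl⟩ (.leaf _)
      (.mp _ 9 14 (.neg q) t ⟨_, rfl, rfl⟩ ⟨_, rfl, rfl⟩
      (.disj _ 13 s st ⟨_, rfl, rfl⟩ (.leaf _)
        (.mp _ 11 16 (.neg s) (.neg t) ⟨_, rfl, rfl⟩ ⟨_, rfl, rfl⟩ (.leaf _)))))))))))), ?_⟩
  exact ⟨parity1, parity2, parity3⟩

/-- There is a directly acceptable formula which has no truth-tree satisfying strengthened parity;
hence `DA^s` is a proper subset of `DA`. -/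
theorem result : (∃ φ : Fml, φ ∈ DA ∧ φ ∉ DAs) ∧ DAs ≠ DA :=
  ⟨⟨phi, phi_mem, phi_not_mem⟩, fun h => phi_not_mem (by rw [h]; exact phi_mem)⟩

end Pool.Agent.Results.MP_b8bcd1_lc.DirectlyAcceptable
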